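import Mathlib

namespace Pool.Agent.Results.MP_47869a_co.All
open Finset

/-- `π` contains the uniform distant pattern `dist_r(q)` -/
def Contains (r : ℕ) {m n : ℕ} (q : Equiv.Perm (Fin m)) (π : Equiv.Perm (Fin n)) : Prop :=
  ∃ i : Fin m → Fin n, (∀ a b : Fin m, (a : ℕ) + 1 = b → (i a : ℕ) + (r + 1) ≤ i b) ∧
    ∀ a b, π (i a) < π (i b) ↔ q a < q b

variable {n : ℕ}

/-- a distant increasing chain of length `l` ends far before `j` and below `v` -/
def Ch (r : ℕ) (π : Equiv.Perm (Fin n)) : ℕ → Fin n → Fin n → Prop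
  | 0, _, _ => True
  | l + 1, j, v => ∃ i : Fin n, (i : ℕ) + (r + 1) ≤ j ∧ π i < v ∧ Ch r π l i (π i)

lemma Ch.mono {r : ℕ} {π : Equiv.Perm (Fin n)} {l : ℕ} {j v j' v' : Fin n} (h : Ch r π l j v)
    (h1 : j ≤ j') (h2 : v ≤ v') : Ch r π l j' v' := by
  cases l with
  | zero => trivial
  | succ l =>
    obtain ⟨i, a, b, c⟩ := h
    exact ⟨i, a.trans h1, b.trans_le h2, c⟩

lemma Ch.drop {r : ℕ} {π : Equiv.Perm (Fin n)} {l : ℕ} {j v : Fin n} (h : Ch r π (l + 1) j v) :
    Ch r π l j v := by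
  induction l generalizing j v with
  | zero => trivial
  | succ l ih =>
    obtain ⟨i, a, b, c⟩ := h
    exact ⟨i, a, b, ih c⟩

lemma Ch.le {r : ℕ} {π : Equiv.Perm (Fin n)} {l M : ℕ} {j v : Fin n} (h : Ch r π M j v)
    (hl : l ≤ M) : Ch r π l j v := by
  induction hl with
  | refl => exact h
  | step _ ih => exact ih h.drop

lemma transfer (r M : ℕ) (π ρ : Equiv.Perm (Fin n)) (h : ∀ j, ¬ Ch r π M j (π j) → ρ j = π j)
    (j : Fin n) : ∀ l ≤ M, ∀ v, Ch r π l j v → Ch r ρ l j v := by
  induction j using WellFoundedLT.induction with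
  | ind j ih =>
    intro l hl v hc
    cases l with
    | zero => trivial
    | succ l =>
      obtain ⟨i, a, b, c⟩ := hc
      have hij : i < j := by rw [Fin.lt_def]; omega
      by_cases hs : Ch r π M i (π i)
      · exact ((ih i hij M le_rfl _ hs).le hl).mono hij.le b.le
      · exact ⟨i, a, by rwa [h i hs], by rw [h i hs]; exact ih i hij l (by omega) _ c⟩

lemma of_iota (r M : ℕ) (π : Equiv.Perm (Fin n)) (h : Contains r (1 : Equiv.Perm (Fin (M + 2))) π) :
    ∃ j j' : Fin n, Ch r π M j (π j) ∧ (j : ℕ) + (r + 1) ≤ j' ∧ π j < π j' := by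
  obtain ⟨i, h1, h2⟩ := h
  have : ∀ l (hl : l < M + 2), Ch r π l (i ⟨l, hl⟩) (π (i ⟨l, hl⟩)) := by
    intro l
    induction l with
    | zero => intro _; trivial
    | succ l ih =>
      intro hl
      exact ⟨i ⟨l, by omega⟩, h1 _ _ rfl, (h2 _ _).2 (by simp), ih _⟩
  exact ⟨i ⟨M, by omega⟩, i ⟨M + 1, by omega⟩, this M _, h1 _ _ rfl, (h2 _ _).2 (by simp)⟩

lemma chain_fun {r : ℕ} {π : Equiv.Perm (Fin n)} {l : ℕ} {j v : Fin n} (h : Ch r π l j v) :
    ∃ f : ℕ → Fin n, (∀ a, a + 1 < l → (f a : ℕ) + (r + 1) ≤ f (a + 1)) ∧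
      (∀ a b, a < b → b < l → π (f a) < π (f b)) ∧
      ∀ a, a < l → (f a : ℕ) + (r + 1) ≤ j ∧ π (f a) < v := by
  induction l generalizing j v with
  | zero => exact ⟨fun _ => j, by simp, by simp, by simp⟩
  | succ l ih =>
    obtain ⟨i, a, b, c⟩ := h
    obtain ⟨f, f1, f2, f3⟩ := ih c
    refine ⟨fun x => if x < l then f x else i, ?_, ?_, ?_⟩
    · intro x hx
      have hx' : x < l := by omega
      by_cases c : x + 1 < l
      · simpa [hx', c] using f1 x c
      · simpa [hx', c] using (f3 x hx').1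
    · intro x y hxy hy
      have hx' : x < l := by omega
      by_cases c : y < l
      · simpa [hx', c] using f2 x y hxy c
      · simpa [hx', c] using (f3 x hx').2
    · intro x _
      by_cases c : x < l
      · have := f3 x c
        simp only [c, if_true]
        exact ⟨by omega, this.2.trans b⟩
      · simpa [c] using ⟨a, b⟩

lemma to_tau (r M : ℕ) (π : Equiv.Perm (Fin n)) (j j' : Fin n) (h : Ch r π M j (π j'))
    (h1 : (j : ℕ) + (r + 1) ≤ j') (h2 : π j' < π j) :
    Contains r (Equiv.swap (⟨M, by omega⟩ : Fin (M + 2)) ⟨M + 1, by omega⟩) π := by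
  obtain ⟨f, f1, f2, f3⟩ := chain_fun h
  let g : ℕ → Fin n := fun x => if x < M then f x else if x = M then j' else j
  have gm : ∀ x y, x < y → y < M + 2 → π (g x) < π (g y) := by
    intro x y hxy hy
    simp only [g]
    split_ifs with c1 c2 c3
    all_goals first
      | omega
      | exact f2 x y hxy c2
      | exact (f3 x c1).2
      | exact (f3 x c1).2.trans h2
      | exact h2
  refine ⟨fun a => g (Equiv.swap (⟨M, by omega⟩ : Fin (M + 2)) ⟨M + 1, by omega⟩ a), ?_, ?_⟩
  · intro a b hab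
    have hb := b.2
    simp only [Equiv.swap_apply_def, Fin.ext_iff, g]
    by_cases c1 : (b : ℕ) < M
    · have := f1 a (by omega)
      rw [hab] at this
      simpa [show (a : ℕ) ≠ M by omega, show (a : ℕ) ≠ M + 1 by omega, show (b : ℕ) ≠ M by omega,
        show (b : ℕ) ≠ M + 1 by omega, c1, show (a : ℕ) < M by omega] using this
    · by_cases c2 : (b : ℕ) = M
      · simpa [show (a : ℕ) ≠ M by omega, show (a : ℕ) ≠ M + 1 by omega, c2,
          show (a : ℕ) < M by omega] using (f3 a (by omega)).1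
      · simpa [show (a : ℕ) = M by omega, show (b : ℕ) = M + 1 by omega] using h1
  · intro a b
    refine ⟨fun hh => ?_, fun hh => gm _ _ hh (Fin.is_lt _)⟩
    by_contra hc
    rcases (not_lt.1 hc).eq_or_lt with e | e
    · simp only [e] at hh; exact lt_irrefl _ hh
    · exact lt_asymm hh (gm _ _ e (Fin.is_lt _))

open Classical in
/-- first marking time of a value -/
noncomputable def mv (Θ : Fin n → Fin n → Prop) (π : Equiv.Perm (Fin n)) (y : Fin n) : Fin n :=
  (univ.filter (fun t => t = π.symm y ∨ (Θ t y ∧ y ≤ π t ∧ t ≤ π.symm y))).min' ⟨π.symm y, by simp⟩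

lemma mv_le (Θ : Fin n → Fin n → Prop) (π : Equiv.Perm (Fin n)) (y t : Fin n)
    (h : t = π.symm y ∨ (Θ t y ∧ y ≤ π t ∧ t ≤ π.symm y)) : mv Θ π y ≤ t := by
  unfold mv; apply min'_le; simpa using h

lemma mv_spec (Θ : Fin n → Fin n → Prop) (π : Equiv.Perm (Fin n)) (y : Fin n)
    (h : Θ (π.symm y) y) : Θ (mv Θ π y) y ∧ y ≤ π (mv Θ π y) ∧ mv Θ π y ≤ π.symm y := by
  classical
  have := min'_mem (univ.filter (fun t => t = π.symm y ∨ (Θ t y ∧ y ≤ π t ∧ t ≤ π.symm y)))
    ⟨π.symm y, by simp⟩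
  rcases (mem_filter.1 this).2 with e | e
  · have e' : mv Θ π y = π.symm y := e
    rw [e']; exact ⟨h, by simp, le_rfl⟩
  · exact e

/-- the sorting key -/
noncomputable def key (Θ : Fin n → Fin n → Prop) (π : Equiv.Perm (Fin n)) (y : Fin n) :
    Lex (Fin n × Fin n) := toLex (mv Θ π y, y)

lemma key_inj (Θ : Fin n → Fin n → Prop) (π : Equiv.Perm (Fin n)) :
    Function.Injective (key Θ π) := fun _ _ h => congrArg (fun p => (ofLex p).2) h

lemma resort {K : Type} [LinearOrder K] (V : Finset (Fin n)) (k : Fin n → K)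
    (hk : Function.Injective k) : ∃ φ : Equiv.Perm (Fin n), (∀ y ∉ V, φ y = y) ∧
      (∀ y, φ y ∈ V ↔ y ∈ V) ∧ ∀ x ∈ V, ∀ y ∈ V, (φ y < φ x ↔ k x < k y) := by
  classical
  let eV := V.orderIsoOfFin rfl
  let eK := (V.image k).orderIsoOfFin (card_image_of_injective V hk)
  let ψ : V → V := fun y => eV (Fin.rev (eK.symm ⟨k y, mem_image_of_mem k y.2⟩))
  have hψ : ∀ x y : V, ψ y < ψ x ↔ k x < k y := by
    intro x y
    simp only [ψ, OrderIso.lt_iff_lt, Fin.rev_lt_rev, Subtype.mk_lt_mk]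
  have inj : Function.Injective ψ := by
    intro x y h
    apply Subtype.ext; apply hk
    apply le_antisymm <;> rw [← not_lt, ← hψ, h] <;> exact lt_irrefl _
  let e := Equiv.ofBijective ψ (Finite.injective_iff_bijective.1 inj)
  refine ⟨Equiv.Perm.ofSubtype e, fun y hy => Equiv.Perm.ofSubtype_apply_of_not_mem e hy,
    fun y => Equiv.Perm.ofSubtype_apply_mem_iff_mem e y, fun x hx y hy => ?_⟩
  rw [Equiv.Perm.ofSubtype_apply_of_mem e hx, Equiv.Perm.ofSubtype_apply_of_mem e hy]
  exact hψ ⟨x, hx⟩ ⟨y, hy⟩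

lemma count_eq {K : Type} [LinearOrder K] (V : Finset (Fin n)) (k : Fin n → K)
    (φ : Equiv.Perm (Fin n)) (h1 : ∀ y, φ y ∈ V ↔ y ∈ V)
    (h2 : ∀ x ∈ V, ∀ y ∈ V, (φ y < φ x ↔ k x < k y)) (y : Fin n) (hy : y ∈ V) :
    (V.filter (fun x => k x < k y)).card = (V.filter (fun v => φ y < v)).card := by
  apply card_bij (fun x _ => φ x)
  · intro x hx
    rw [mem_filter] at hx ⊢
    exact ⟨(h1 x).2 hx.1, (h2 x hx.1 y hy).2 hx.2⟩
  · intro _ _ _ _ h; exact φ.injective h
  · intro v hv
    rw [mem_filter] at hv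
    have : φ.symm v ∈ V := (h1 _).1 (by simpa using hv.1)
    exact ⟨φ.symm v, mem_filter.2 ⟨this, (h2 _ this y hy).1 (by simpa using hv.2)⟩, by simp⟩

open Classical in
lemma image_exists (r M : ℕ) (π : Equiv.Perm (Fin n)) : ∃ ρ : Equiv.Perm (Fin n),
    (∀ j v, Ch r ρ M j v ↔ Ch r π M j v) ∧ (∀ j, Ch r ρ M j (ρ j) ↔ Ch r π M j (π j)) ∧
    (∀ j, ¬ Ch r π M j (π j) → ρ j = π j) ∧
    (∀ j j', Ch r π M j (π j) → Ch r π M j' (π j') →
      (ρ j < ρ j' ↔ key (Ch r π M) π (π j') < key (Ch r π M) π (π j))) ∧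
    ∀ j, Ch r π M j (π j) →
      ((univ.filter (fun y => Ch r π M (π.symm y) y)).filter
        (fun x => key (Ch r π M) π x < key (Ch r π M) π (π j))).card =
      ((univ.filter (fun y => Ch r ρ M (ρ.symm y) y)).filter (fun v => ρ j < v)).card := by
  set V := univ.filter (fun y => Ch r π M (π.symm y) y) with hV
  have mV : ∀ y, y ∈ V ↔ Ch r π M (π.symm y) y := by simp [hV]
  have mV' : ∀ j, π j ∈ V ↔ Ch r π M j (π j) := by simp [hV]
  obtain ⟨φ, p1, p2, p3⟩ := resort V _ (key_inj (Ch r π M) π)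
  have small : ∀ j, ¬ Ch r π M j (π j) → (φ * π) j = π j := fun j hj =>
    p1 _ (by rwa [mV'])
  have board : ∀ j, Ch r π M j (π j) → Ch r π M j (φ (π j)) := by
    intro j hj
    by_contra hc
    have c := count_eq V _ φ p2 p3 (π j) ((mV' j).2 hj)
    have : V.filter (fun x => key (Ch r π M) π x < key (Ch r π M) π (π j)) ⊂
        V.filter (fun v => φ (π j) < v) := by
      have up : ∀ x, Ch r π M j x → φ (π j) < x := fun x hx => by
        by_contra h; exact hc (hx.mono le_rfl (not_lt.1 h))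
      rw [ssubset_iff_of_subset]
      · exact ⟨π j, mem_filter.2 ⟨(mV' j).2 hj, up _ hj⟩, by simp⟩
      · intro x hx
        rw [mem_filter] at hx ⊢
        refine ⟨hx.1, up x ((mv_spec _ π x ((mV x).1 hx.1)).1.mono ?_ le_rfl)⟩
        have a := Prod.Lex.monotone_fst _ _ hx.2.le
        exact le_trans a (mv_le _ π (π j) j (Or.inl (by simp)))
    exact (card_lt_card this).ne c
  have t1 := transfer r M π (φ * π) small
  have t2 := transfer r M (φ * π) π (fun j hj => by
    by_contra hc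
    apply hj
    have : Ch r π M j (π j) := by by_contra h; exact hc (small j h).symm
    exact t1 j M le_rfl _ (board j this))
  have same : ∀ j v, Ch r (φ * π) M j v ↔ Ch r π M j v :=
    fun j v => ⟨t2 j M le_rfl v, t1 j M le_rfl v⟩
  have big : ∀ j, Ch r (φ * π) M j ((φ * π) j) ↔ Ch r π M j (π j) := by
    intro j
    rw [same]
    exact ⟨fun h => by by_contra hc; rw [small j hc] at h; exact hc h, board j⟩
  refine ⟨φ * π, same, big, small, fun j j' h h' => p3 _ ((mV' _).2 h') _ ((mV' _).2 h), ?_⟩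
  intro j hj
  have : univ.filter (fun y => Ch r (φ * π) M ((φ * π).symm y) y) = V := by
    ext y
    obtain ⟨i, rfl⟩ := (φ * π).surjective y
    rw [mem_filter, Equiv.symm_apply_apply, big, ← mV', Equiv.Perm.mul_apply, p2]; simp
  rw [this]
  exact count_eq V _ φ p2 p3 (π j) ((mV' j).2 hj)

lemma eqm' (Θ : Fin n → Fin n → Prop) (π σ : Equiv.Perm (Fin n)) (V : Finset (Fin n))
    (h1 : ∀ y ∈ V, Θ (π.symm y) y) (h2 : ∀ y ∈ V, Θ (σ.symm y) y) (j : Fin n)
    (hj : ∀ t < j, π t = σ t) : ∀ y ∈ V, min (mv Θ σ y) j = min (mv Θ π y) j := by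
  have one : ∀ (π σ : Equiv.Perm (Fin n)), (∀ y ∈ V, Θ (π.symm y) y) → (∀ t < j, π t = σ t) →
      ∀ y ∈ V, min (mv Θ σ y) j ≤ min (mv Θ π y) j := by
    intro π σ h1 hj y hy
    rcases le_or_gt j (mv Θ π y) with c | c
    · rw [min_eq_right c]; exact min_le_right _ _
    · rw [min_eq_left c.le]
      refine (min_le_left _ _).trans (mv_le _ _ _ _ (Or.inr ?_))
      obtain ⟨a, b, d⟩ := mv_spec Θ π y (h1 y hy)
      refine ⟨a, by rwa [← hj _ c], ?_⟩
      by_contra e
      have e1 := not_le.1 e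
      have := hj _ (e1.trans c)
      rw [Equiv.apply_symm_apply] at this
      rw [← this, Equiv.symm_apply_apply, this] at d
      exact e d
  exact fun y hy =>
    le_antisymm (one π σ h1 hj y hy) (one σ π h2 (fun t ht => (hj t ht).symm) y hy)

open Classical in
lemma recover (Θ : Fin n → Fin n → Prop) (hΘ : ∀ j v j', Θ j v → j ≤ j' → Θ j' v)
    (π σ : Equiv.Perm (Fin n)) (V : Finset (Fin n)) (h1 : ∀ y ∈ V, Θ (π.symm y) y)
    (h2 : ∀ y ∈ V, Θ (σ.symm y) y) (j : Fin n) (hj : ∀ t < j, π t = σ t)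
    (hp : π j ∈ V) (hs : σ j ∈ V) (hlt : (toLex (min (mv Θ π (π j)) j, π j) : Lex (Fin n × Fin n)) <
      toLex (min (mv Θ π (σ j)) j, σ j)) :
    (V.filter (fun x => key Θ π x < key Θ π (π j))).card <
      (V.filter (fun x => key Θ σ x < key Θ σ (σ j))).card := by
  have eqm := eqm' Θ π σ V h1 h2 j hj
  have char : ∀ (π : Equiv.Perm (Fin n)), (∀ y ∈ V, Θ (π.symm y) y) → ∀ x ∈ V,
      (key Θ π x < key Θ π (π j) ↔ Θ j x ∧ (toLex (min (mv Θ π x) j, x) : Lex (Fin n × Fin n)) <
        toLex (min (mv Θ π (π j)) j, π j)) := by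
    intro π h1 x hx
    have a : mv Θ π (π j) ≤ j := mv_le _ π (π j) j (Or.inl (by simp))
    rw [min_eq_left a]
    simp only [key, Prod.Lex.toLex_lt_toLex]
    constructor
    · intro h
      have b : mv Θ π x ≤ j := by rcases h with h | h; exacts [h.le.trans a, h.1.le.trans a]
      rw [min_eq_left b]
      exact ⟨hΘ _ _ _ (mv_spec Θ π x (h1 x hx)).1 b, h⟩
    · rintro ⟨h, h'⟩
      have b : mv Θ π x ≤ j := by
        by_contra hc
        have hc' := not_le.1 hc
        rw [min_eq_right hc'.le] at h'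
        rcases h' with h' | h'
        · exact absurd h' (not_lt.2 a)
        · exact hc (mv_le _ _ _ _ (Or.inr ⟨h, h'.2.le,
            hc'.le.trans (mv_spec Θ π x (h1 x hx)).2.2⟩))
      rwa [min_eq_left b] at h'
  apply card_lt_card
  rw [ssubset_iff_of_subset]
  · refine ⟨π j, mem_filter.2 ⟨hp, ?_⟩, by simp⟩
    rw [char σ h2 _ hp, eqm _ hp, eqm _ hs]
    exact ⟨by simpa using h1 _ hp, hlt⟩
  · intro x hx
    rw [mem_filter] at hx ⊢
    refine ⟨hx.1, ?_⟩
    have := (char π h1 x hx.1).1 hx.2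
    rw [char σ h2 _ hx.1, eqm _ hx.1, eqm _ hs]
    exact ⟨this.1, this.2.trans hlt⟩

theorem result (M r n : ℕ) :
    {π : Equiv.Perm (Fin n) | ¬ Contains r
      (Equiv.swap (⟨M, by omega⟩ : Fin (M + 2)) ⟨M + 1, by omega⟩) π}.ncard ≤
    {π : Equiv.Perm (Fin n) | ¬ Contains r (1 : Equiv.Perm (Fin (M + 2))) π}.ncard := by
  classical
  choose ρ p1 p2 p3 p4 p5 using image_exists (n := n) r M
  apply Set.ncard_le_ncard_of_injOn ρ
  · intro π hπ hc
    apply hπ
    obtain ⟨j, j', a, b, c⟩ := of_iota r M _ hc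
    have jj : j ≤ j' := by rw [Fin.le_def]; omega
    have a' := (p2 π j').1 (a.mono jj c.le)
    have d := Prod.Lex.monotone_fst _ _ ((p4 π j j' ((p2 π j).1 a) a').1 c).le
    have e : mv (Ch r π M) π (π j') ≤ j := le_trans d (mv_le _ π (π j) j (Or.inl (by simp)))
    obtain ⟨s1, s2, -⟩ := mv_spec (Ch r π M) π (π j') (by simpa using a')
    have e' : (mv (Ch r π M) π (π j') : ℕ) ≤ j := e
    refine to_tau r M π _ j' s1 (by omega) (lt_of_le_of_ne s2 fun h => ?_)
    have := congrArg Fin.val (π.injective h)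
    omega
  · intro π _ σ _ h
    have hΘ : Ch r σ M = Ch r π M := by
      funext j v; rw [← p1, ← p1 π, h]
    have vals : ∀ π : Equiv.Perm (Fin n), univ.filter (fun y => Ch r π M (π.symm y) y) =
        univ.filter (fun y => Ch r (ρ π) M ((ρ π).symm y) y) := by
      intro π
      apply filter_congr; intro y _
      rw [← not_iff_not]
      constructor
      · intro c
        have := p3 π (π.symm y) (by simpa using c)
        rw [Equiv.apply_symm_apply, ← Equiv.eq_symm_apply] at this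
        rwa [p1, ← this]
      · intro c
        have c' := mt (p2 π ((ρ π).symm y)).2 (by simpa using c)
        have := p3 π _ c'
        rw [Equiv.apply_symm_apply, ← Equiv.symm_apply_eq] at this
        rwa [this, ← p1]
    have all : ∀ j, π j = σ j := by
      intro j
      induction j using WellFoundedLT.induction with
      | ind j ih =>
        by_cases c : Ch r π M j (π j)
        · have c' : Ch r σ M j (σ j) := by rw [← p2, ← h, p2]; exact c
          have q1 := p5 π j c
          have q2 := p5 σ j c'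
          rw [vals σ, ← h, hΘ] at q2
          rw [vals π] at q1
          replace q2 := q2.trans q1.symm
          set V := univ.filter (fun y => Ch r (ρ π) M ((ρ π).symm y) y) with hV
          have v1 : ∀ y, y ∈ V ↔ Ch r π M (π.symm y) y := by
            intro y; rw [hV, ← vals]; simp
          have v2 : ∀ y, y ∈ V ↔ Ch r π M (σ.symm y) y := by
            intro y; rw [hV, h, ← vals, hΘ]; simp
          have m1 : π j ∈ V := (v1 _).2 (by simpa using c)
          have m2 : σ j ∈ V := (v2 _).2 (by simpa [hΘ] using c')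
          have mo : ∀ j v j', Ch r π M j v → j ≤ j' → Ch r π M j' v :=
            fun j v j' a b => a.mono b le_rfl
          have r1 := recover _ mo π σ V (fun y => (v1 y).1) (fun y => (v2 y).1) j ih m1 m2
          rcases lt_trichotomy (toLex (min (mv (Ch r π M) π (π j)) j, π j) : Lex (Fin n × Fin n))
            (toLex (min (mv (Ch r π M) π (σ j)) j, σ j)) with e | e | e
          · exact absurd q2 (r1 e).ne'
          · exact congrArg (fun p => (ofLex p).2) e
          · have r2 := recover _ mo σ π V (fun y => (v2 y).1) (fun y => (v1 y).1) j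
              (fun t ht => (ih t ht).symm) m2 m1
            have em := eqm' _ π σ V (fun y => (v1 y).1) (fun y => (v2 y).1) j ih
            rw [em _ m1, em _ m2] at r2
            exact absurd q2 (r2 e).ne
        · have c' : ¬ Ch r σ M j (σ j) := by rw [← p2, ← h, p2]; exact c
          rw [← p3 π j c, ← p3 σ j c', h]
    exact Equiv.ext all

end Pool.Agent.Results.MP_47869a_co.All
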